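import Pool.Agent.COPG.Six
import Pool.Agent.EMP623.Euler

/-!
# MP_623eed_co: Schröder's conjecture for dense graphs

`Win` and `CopWin` are the game of Cops and Robbers: `CopWin G k` says that `k` cops have a winning
strategy on `G`.  `GenusLE G g` says that `G` has a rotation system whose genus, by Euler's formula
`2 - 2 genus = |V| - |E| + F` with `F` the number of faces, is at most `g`.

For every `K` there is a number `B(K)`, with `B(4) = 1`, `B(5) = 6`, `B(6) = 39`, such that for all
connected graphs `G`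
* `k` cops win on `G` if `|V| + B(K) ≤ K k`; for `K = 5` this says `c(G) ≤ |V| / 5 + 2`;
* `g + 3` cops win on `G` if the genus of `G` is at most `g` and
  `(3 K + 6) |V| + 6 B(K) ≤ K (|E| + 24)`; for `K = 5` this says `|E| ≥ 4.2 |V| - 16.8`;
* `g + 3` cops win on `G` if the genus of `G` is at most `g`, `G` has no triangle and
  `(2 K + 4) |V| + 4 B(K) ≤ K (|E| + 16)`; for `K = 5` this says `|E| ≥ 2.8 |V| - 11.2`.
-/

set_option autoImplicit false

namespace Pool.Agent.Results.MP_623eed_co.DenseGraphs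

/-- The cops at `c` win against the robber at `r`, the robber to move: a cop is on `r`, or for
every move of the robber to `r'` (a neighbour of `r` or `r` itself) the cops have an answer `f r'`
(every cop moves to a neighbour or stays) after which they win. -/
inductive Win {V : Type} (G : SimpleGraph V) {k : ℕ} : (Fin k → V) → V → Prop
  | caught (c : Fin k → V) (r : V) (i : Fin k) (h : c i = r) : Win G c r
  | step (c : Fin k → V) (r : V) (f : V → Fin k → V)
      (hf : ∀ r', r' = r ∨ G.Adj r r' → ∀ i, f r' i = c i ∨ G.Adj (c i) (f r' i))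
      (hw : ∀ r', r' = r ∨ G.Adj r r' → Win G (f r') r') : Win G c r

/-- `k` cops have a winning strategy: they choose their vertices `c`, the robber chooses `r`, the
cops move to `c'`, and from then on, the robber to move, they win. -/
def CopWin {V : Type} (G : SimpleGraph V) (k : ℕ) : Prop :=
  ∃ c : Fin k → V, ∀ r : V, ∃ c' : Fin k → V,
    (∀ i, c' i = c i ∨ G.Adj (c i) (c' i)) ∧ Win G c' r

/-- `G` has a rotation system `σ` of genus at most `g`: `σ` permutes the darts at each vertex
cyclically, the faces are the orbits of `σ` after the reversal of the darts, and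
`|E| + 2 ≤ |V| + |faces| + 2 g`. -/
def GenusLE {V : Type} [Fintype V] (G : SimpleGraph V) (g : ℕ) : Prop :=
  ∃ σ : Equiv.Perm G.Dart, (∀ d, (σ d).fst = d.fst) ∧
    (∀ d d' : G.Dart, d.fst = d'.fst → ∃ n : ℕ, (σ ^ n) d = d') ∧
    Nat.card G.edgeSet + 2 ≤ Nat.card V + Nat.card (MulAction.orbitRel.Quotient
      (Subgroup.zpowers (σ * Equiv.mk (fun d : G.Dart => d.symm) (fun d : G.Dart => d.symm)
        (fun d => d.symm_symm) (fun d => d.symm_symm))) G.Dart) + 2 * g

theorem win_of {V : Type} {G : SimpleGraph V} {k : ℕ} {c : Fin k → V} {r : V}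
    (h : Pool.Agent.COPG.Win G c r) : Win G c r := by
  induction h with
  | caught c r i h => exact Win.caught c r i h
  | step c r f hf _ ih => exact Win.step c r f hf ih

theorem copWin_of {V : Type} {G : SimpleGraph V} {k : ℕ} (h : Pool.Agent.COPG.CopWin G k) :
    CopWin G k := by
  obtain ⟨c, hc⟩ := h
  refine ⟨c, fun r => ?_⟩
  obtain ⟨c', h1, h2⟩ := hc r
  exact ⟨c', h1, win_of h2⟩

/-- `3 F ≤ 2 E` gives `|E| + 6 ≤ 3 |V| + 6 g`. -/
theorem genus3 {V : Type} [Fintype V] {G : SimpleGraph V} (hG : G.Connected)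
    (hV : 3 ≤ Nat.card V) {g : ℕ} (hg : GenusLE G g) :
    Nat.card G.edgeSet + 6 ≤ 3 * Nat.card V + 6 * g := by
  obtain ⟨σ, h1, h2, h3⟩ := hg
  have h := Pool.Agent.EMP623.Euler.three_faces_le G hG hV σ h1 h2
  omega

/-- `4 F ≤ 2 E` gives `|E| + 4 ≤ 2 |V| + 4 g`. -/
theorem genus4 {V : Type} [Fintype V] {G : SimpleGraph V} (hG : G.Connected)
    (hV : 3 ≤ Nat.card V) (htf : ∀ a b c : V, G.Adj a b → G.Adj b c → G.Adj c a → False)
    {g : ℕ} (hg : GenusLE G g) :
    Nat.card G.edgeSet + 4 ≤ 2 * Nat.card V + 4 * g := by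
  obtain ⟨σ, h1, h2, h3⟩ := hg
  have h := Pool.Agent.EMP623.Euler.four_faces_le G hG hV htf σ h1 h2
  omega

theorem result :
    ∃ B : ℕ → ℕ, B 4 = 1 ∧ B 5 = 6 ∧ B 6 = 39 ∧
      ∀ (K : ℕ) (V : Type) [Fintype V] (G : SimpleGraph V), G.Connected →
        (∀ k : ℕ, Nat.card V + B K ≤ K * k → CopWin G k) ∧
        ∀ g : ℕ, GenusLE G g →
          ((3 * K + 6) * Nat.card V + 6 * B K ≤ K * (Nat.card G.edgeSet + 24) ∨
            (∀ a b c : V, G.Adj a b → G.Adj b c → G.Adj c a → False) ∧
              (2 * K + 4) * Nat.card V + 4 * B K ≤ K * (Nat.card G.edgeSet + 16)) →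
          CopWin G (g + 3) := by
  obtain ⟨B, h4, h5, h6, hB⟩ := Pool.Agent.COPG.copWin_all
  refine ⟨B, h4, h5, h6, fun K V _ G hG => ⟨fun k h => copWin_of (hB K V G hG k h), ?_⟩⟩
  intro g hg h
  by_cases hV : 3 ≤ Nat.card V
  · refine copWin_of (hB K V G hG _ ?_)
    rw [Nat.mul_add]
    rcases h with h | ⟨htf, h⟩
    · have h1 := Nat.mul_le_mul_left K (genus3 hG hV hg)
      have e1 : (3 * K + 6) * Nat.card V = 3 * (K * Nat.card V) + 6 * Nat.card V := by ring
      have e2 : K * (3 * Nat.card V + 6 * g) = 3 * (K * Nat.card V) + 6 * (K * g) := by ring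
      rw [e1, Nat.mul_add] at h
      rw [e2, Nat.mul_add] at h1
      omega
    · have h1 := Nat.mul_le_mul_left K (genus4 hG hV htf hg)
      have e1 : (2 * K + 4) * Nat.card V = 2 * (K * Nat.card V) + 4 * Nat.card V := by ring
      have e2 : K * (2 * Nat.card V + 4 * g) = 2 * (K * Nat.card V) + 4 * (K * g) := by ring
      rw [e1, Nat.mul_add] at h
      rw [e2, Nat.mul_add] at h1
      omega
  · refine copWin_of (hB 5 V G hG _ ?_)
    rw [h5]
    omega

end Pool.Agent.Results.MP_623eed_co.DenseGraphs
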