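import Pool.Agent.CPH.Ind2
import Pool.Agent.CPH.Rate2
import Pool.Agent.CPH.Rate3

/-!
# MP_623eed_co: the cop number and the cycle rank; Schröder's conjecture for few faces

`Win` and `CopWin` are the game of Cops and Robbers: `CopWin G k` says that `k` cops have a winning
strategy on `G`.  `Rotation G g F` says that `G` has a rotation system with `F` faces and, by
Euler's formula `|V| - |E| + F = 2 - 2 g`, of genus `g`.  Let `b = |E| - |V| + 1` be the cycle rank
of a connected graph `G`.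

1. There are numbers `B K ≤ 4 ^ (K - 1)`, with `B 1 = 1`, `B 2 = 2`, `B 3 = 5`, `B 4 = 14`, such that
   `k` cops win on `G` if `b + B K ≤ K k`.
2. If `b ≥ 2`, some `k ≤ 4 b / log b` cops win on `G`.
3. If `G` has a rotation system of genus `g` with `F ≤ g + 5` or `F ≤ 2 g - 1` faces, then `g + 3`
   cops win on `G`.
4. For every `ε > 0` there are `c > 0` and `g₀` such that, if `G` has a rotation system of genus
   `g ≥ g₀` with at most `c g log g` faces, then some `k ≤ ε g` cops win on `G`.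
-/

set_option autoImplicit false

namespace Pool.Agent.Results.MP_623eed_co.FewFaces

/-- The cops at `c` win against the robber at `r`, the robber to move: a cop is on `r`, or for
every move of the robber to `r'` (a neighbour of `r` or `r` itself) the cops have an answer `f r'`
(every cop moves to a neighbour or stays) after which they win. -/
inductive Win {V : Type} (G : SimpleGraph V) {k : ℕ} : (Fin k → V) → V → Prop
  | caught (c : Fin k → V) (r : V) (i : Fin k) (h : c i = r) : Win G c r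
  | step (c : Fin k → V) (r : V) (f : V → Fin k → V)
      (hf : ∀ r', r' = r ∨ G.Adj r r' → ∀ i, f r' i = c i ∨ G.Adj (c i) (f r' i))
      (hw : ∀ r', r' = r ∨ G.Adj r r' → Win G (f r') r') : Win G c r

/-- `k` cops have a winning strategy: they choose their vertices `c`, the robber chooses `r`, the
cops move to `c'`, and from then on, the robber to move, they win. -/
def CopWin {V : Type} (G : SimpleGraph V) (k : ℕ) : Prop :=
  ∃ c : Fin k → V, ∀ r : V, ∃ c' : Fin k → V,
    (∀ i, c' i = c i ∨ G.Adj (c i) (c' i)) ∧ Win G c' r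

/-- `G` has a rotation system `σ` of genus `g` with `F` faces: `σ` permutes the darts at each
vertex cyclically, the faces are the orbits of `σ` after the reversal of the darts, and
`|E| + 2 = |V| + F + 2 g`. -/
def Rotation {V : Type} [Fintype V] (G : SimpleGraph V) (g F : ℕ) : Prop :=
  ∃ σ : Equiv.Perm G.Dart, (∀ d, (σ d).fst = d.fst) ∧
    (∀ d d' : G.Dart, d.fst = d'.fst → ∃ n : ℕ, (σ ^ n) d = d') ∧
    Nat.card (MulAction.orbitRel.Quotient
      (Subgroup.zpowers (σ * Equiv.mk (fun d : G.Dart => d.symm) (fun d : G.Dart => d.symm)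
        (fun d => d.symm_symm) (fun d => d.symm_symm))) G.Dart) = F ∧
    Nat.card G.edgeSet + 2 = Nat.card V + F + 2 * g

theorem win_of {V : Type} {G : SimpleGraph V} {k : ℕ} {c : Fin k → V} {r : V}
    (h : Pool.Agent.COPG.Win G c r) : Win G c r := by
  induction h with
  | caught c r i h => exact Win.caught c r i h
  | step c r f hf _ ih => exact Win.step c r f hf ih

theorem copWin_of {V : Type} {G : SimpleGraph V} {k : ℕ} (h : Pool.Agent.COPG.CopWin G k) :
    CopWin G k := by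
  obtain ⟨c, hc⟩ := h
  refine ⟨c, fun r => ?_⟩
  obtain ⟨c', h1, h2⟩ := hc r
  exact ⟨c', h1, win_of h2⟩

theorem result :
    (∃ B : ℕ → ℕ, B 1 = 1 ∧ B 2 = 2 ∧ B 3 = 5 ∧ B 4 = 14 ∧ (∀ K, 1 ≤ K → B K ≤ 4 ^ (K - 1)) ∧
      ∀ K : ℕ, 1 ≤ K → ∀ (V : Type) [Fintype V] (G : SimpleGraph V), G.Connected → ∀ k : ℕ,
        Nat.card G.edgeSet + 1 + B K ≤ Nat.card V + K * k → CopWin G k) ∧
    (∀ (V : Type) [Fintype V] (G : SimpleGraph V), G.Connected → ∀ b : ℕ, 2 ≤ b →
      Nat.card G.edgeSet + 1 = Nat.card V + b →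
      ∃ k : ℕ, CopWin G k ∧ (k : ℝ) ≤ 4 * b / Real.log b) ∧
    (∀ (V : Type) [Fintype V] (G : SimpleGraph V), G.Connected → ∀ g F : ℕ, Rotation G g F →
      (F ≤ g + 5 ∨ F + 1 ≤ 2 * g) → CopWin G (g + 3)) ∧
    (∀ ε : ℝ, 0 < ε → ∃ c : ℝ, 0 < c ∧ ∃ g₀ : ℕ, ∀ g F : ℕ, g₀ ≤ g →
      (F : ℝ) ≤ c * g * Real.log g →
      ∀ (V : Type) [Fintype V] (G : SimpleGraph V), G.Connected → Rotation G g F →
        ∃ k : ℕ, CopWin G k ∧ (k : ℝ) ≤ ε * g) := by
  obtain ⟨B, h1, h2, h3, h4, hle, hB⟩ := Pool.Agent.CPH.copWin_rank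
  have main : ∀ (V : Type) [Fintype V] (G : SimpleGraph V), G.Connected → ∀ b : ℕ, 2 ≤ b →
      Nat.card G.edgeSet + 1 = Nat.card V + b →
      ∃ k : ℕ, CopWin G k ∧ (k : ℝ) ≤ 4 * b / Real.log b := by
    intro V _ G hG b hb hE
    obtain ⟨K, k, hK, hk, hr⟩ := Pool.Agent.CPH.rate b hb
    refine ⟨k, copWin_of (hB K hK V G hG k ?_), hr⟩
    have := hle K hK
    omega
  refine ⟨⟨B, h1, h2, h3, h4, hle, fun K hK V _ G hG k h => copWin_of (hB K hK V G hG k h)⟩,
    main, fun V _ G hG g F hR hF => ?_, fun ε hε => ?_⟩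
  · obtain ⟨σ, _, _, _, hE⟩ := hR
    rcases hF with hF | hF
    · exact copWin_of (hB 3 (by norm_num) V G hG (g + 3) (by rw [h3]; omega))
    · exact copWin_of (hB 4 (by norm_num) V G hG (g + 3) (by rw [h4]; omega))
  · obtain ⟨c, hc, g₀, hg₀⟩ := Pool.Agent.CPH.rate_faces2 4 (by norm_num) ε hε
    refine ⟨c, hc, max g₀ 1, fun g F hg hF V _ G hG hR => ?_⟩
    obtain ⟨σ, _, _, _, hE⟩ := hR
    have hg1 : 1 ≤ g := (le_max_right _ _).trans hg
    obtain ⟨h16, hb⟩ := hg₀ g F ((le_max_left _ _).trans hg) hF (F + 2 * g - 1) (by omega)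
    obtain ⟨k, hk, h⟩ := main V G hG (F + 2 * g - 1) h16 (by omega)
    exact ⟨k, hk, h.trans hb⟩

end Pool.Agent.Results.MP_623eed_co.FewFaces
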